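import Mathlib

namespace Pool.Agent.Results.MP_718903_gt.CountableExample

open Set Topology Filter

/-- `X` has a dense subspace that is a countable union of discrete subspaces. -/
def LowerDSeparable (X : Type) [TopologicalSpace X] : Prop :=
  ∃ E : ℕ → Set X, (∀ n, DiscreteTopology (E n)) ∧ Dense (⋃ n, E n)

/-- From every sequence of dense subspaces one can select discrete subspaces with dense union. -/
def UpperDSeparable (X : Type) [TopologicalSpace X] : Prop :=
  ∀ D : ℕ → Set X, (∀ n, Dense (D n)) →
    ∃ F : ℕ → Set X, (∀ n, F n ⊆ D n ∧ DiscreteTopology (F n)) ∧ Dense (⋃ n, F n)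

/-- Every non-closed set has a sequence converging to a point of its closure outside it. -/
def Sequential (X : Type) [TopologicalSpace X] : Prop :=
  ∀ A : Set X, ¬ IsClosed A →
    ∃ p ∈ closure A \ A, ∃ x : ℕ → X, (∀ n, x n ∈ A) ∧ Tendsto x atTop (𝓝 p)

/-- points of the example -/
structure X where
  c : ℕ
  r : ℕ

instance : Countable X :=
  Function.Injective.countable (f := fun x : X => (x.c, x.r)) fun x y h => by
    cases x; cases y; simp_all

/-- sets with finite columns -/
def Small (A : Set X) : Prop := ∀ n, {m | (⟨n, m⟩ : X) ∈ A}.Finite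

instance : TopologicalSpace X := TopologicalSpace.ofClosed {A | A = univ ∨ Small A}
  (Or.inr fun _ => by simp)
  (by
    intro 𝒜 h
    by_cases hc : ∃ A ∈ 𝒜, Small A
    · obtain ⟨A, hA, hs⟩ := hc
      exact Or.inr fun n => (hs n).subset fun m hm => hm A hA
    · push Not at hc
      left
      exact eq_univ_of_forall fun x A hA => by
        rcases h hA with rfl | h2
        · trivial
        · exact absurd h2 (hc A hA))
  (by
    rintro A (rfl | hA) B hB
    · left; simp
    rcases hB with rfl | hB
    · left; simp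
    · exact Or.inr fun n => ((hA n).union (hB n)).subset fun m hm => hm)

theorem closed_iff {A : Set X} : IsClosed A ↔ A = univ ∨ Small A := by
  rw [← isOpen_compl_iff]
  show Aᶜᶜ ∈ {A : Set X | A = univ ∨ Small A} ↔ _
  rw [compl_compl]
  rfl

theorem not_small_univ : ¬ Small univ := fun h => infinite_univ (α := ℕ) (by simpa using h 0)

theorem dense_iff {A : Set X} : Dense A ↔ ¬ Small A := by
  constructor
  · intro h hs
    have := (closed_iff.2 (Or.inr hs)).closure_eq
    rw [h.closure_eq] at this
    exact not_small_univ (this ▸ hs)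
  · intro h
    rcases closed_iff.1 (isClosed_closure (s := A)) with e | e
    · exact dense_iff_closure_eq.2 e
    · exact absurd (fun n => (e n).subset fun m hm => subset_closure hm) h

theorem t1 : T1Space X := ⟨fun x => closed_iff.2 (Or.inr fun n =>
  (finite_singleton x.r).subset fun m hm => by
    have : (⟨n, m⟩ : X) = x := hm
    rw [← this]; rfl)⟩

theorem fu : FrechetUrysohnSpace X := by
  refine ⟨fun A p hp => ?_⟩
  by_cases hs : Small A
  · rw [(closed_iff.2 (Or.inr hs)).closure_eq] at hp
    exact subset_seqClosure hp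
  · obtain ⟨n, hn⟩ := not_forall.1 hs
    have hi : {m | (⟨n, m⟩ : X) ∈ A}.Infinite := hn
    refine ⟨fun k => ⟨n, hi.natEmbedding _ k⟩, fun k => (hi.natEmbedding _ k).2, ?_⟩
    rw [← Nat.cofinite_eq_atTop, tendsto_nhds]
    intro U hU hpU
    rcases closed_iff.1 hU.isClosed_compl with e | e
    · exact absurd hpU (show p ∈ Uᶜ from e ▸ mem_univ p)
    · rw [mem_cofinite]
      refine ((e n).preimage (f := fun k => ((hi.natEmbedding _ k : ℕ))) ?_).subset fun k hk => hk
      exact fun a _ b _ hab => (hi.natEmbedding _).injective (Subtype.ext hab)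

theorem small_of_discrete {A : Set X} (h : DiscreteTopology A) : Small A := by
  rcases A.eq_empty_or_nonempty with rfl | ⟨y, hy⟩
  · intro n; simp
  obtain ⟨U, hU, e⟩ := discreteTopology_subtype_iff'.1 h y hy
  have hyU : y ∈ U := (e.symm ▸ (mem_singleton y) : y ∈ U ∩ _).1
  rcases closed_iff.1 hU.isClosed_compl with e2 | e2
  · exact absurd hyU (show y ∈ Uᶜ from e2 ▸ mem_univ y)
  · intro n
    refine ((e2 n).union (finite_singleton y.r)).subset fun m hm => ?_
    by_cases hm2 : (⟨n, m⟩ : X) ∈ U
    · right
      have : (⟨n, m⟩ : X) ∈ U ∩ A := ⟨hm2, hm⟩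
      rw [e] at this
      have e3 : (⟨n, m⟩ : X) = y := this
      rw [← e3]; rfl
    · exact Or.inl hm2

theorem result : ∃ (X : Type) (_ : TopologicalSpace X), Countable X ∧ T1Space X ∧
    FrechetUrysohnSpace X ∧ Sequential X ∧ TopologicalSpace.SeparableSpace X ∧
    LowerDSeparable X ∧ ¬ UpperDSeparable X := by
  refine ⟨X, inferInstance, inferInstance, t1, fu, ?_, inferInstance, ?_, ?_⟩
  · intro A hA
    have := fu
    by_contra hc
    push Not at hc
    refine hA (IsSeqClosed.isClosed fun x p hx ht => ?_)
    by_contra hp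
    exact hc p ⟨mem_closure_of_tendsto ht (Eventually.of_forall hx), hp⟩ x hx ht
  · obtain ⟨f, hf⟩ := @exists_surjective_nat X ⟨⟨0, 0⟩⟩ _
    refine ⟨fun n => {f n}, fun n => inferInstance, ?_⟩
    have : (⋃ n, {f n}) = (univ : Set X) := eq_univ_of_forall fun x => by
      obtain ⟨n, rfl⟩ := hf x
      exact mem_iUnion.2 ⟨n, rfl⟩
    rw [this]
    exact dense_univ
  · intro h
    obtain ⟨F, hF, hd⟩ := h (fun n => {x | x.c = n}) fun n => dense_iff.2 fun hs =>
      infinite_univ (α := ℕ) (by simpa using hs n)
    refine dense_iff.1 hd fun n => (small_of_discrete (hF n).2 n).subset fun m hm => ?_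
    obtain ⟨k, hk⟩ := mem_iUnion.1 hm
    have : n = k := (hF k).1 hk
    subst this
    exact hk

end Pool.Agent.Results.MP_718903_gt.CountableExample
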