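import Mathlib

namespace Pool.Agent.Results.MP_718903_gt.TychonoffAnswer

open Set Topology Filter

universe u

/-- `X` has a dense subspace that is a countable union of discrete subspaces. -/
def LowerDSeparable (X : Type u) [TopologicalSpace X] : Prop :=
  ∃ E : ℕ → Set X, (∀ n, DiscreteTopology (E n)) ∧ Dense (⋃ n, E n)

/-- From every sequence of dense subspaces one can select discrete subspaces with dense union. -/
def UpperDSeparable (X : Type u) [TopologicalSpace X] : Prop :=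
  ∀ D : ℕ → Set X, (∀ n, Dense (D n)) →
    ∃ F : ℕ → Set X, (∀ n, F n ⊆ D n ∧ DiscreteTopology (F n)) ∧ Dense (⋃ n, F n)

/-- Every non-closed set has a sequence converging to a point of its closure outside it. -/
def Sequential (X : Type u) [TopologicalSpace X] : Prop :=
  ∀ A : Set X, ¬ IsClosed A →
    ∃ p ∈ closure A \ A, ∃ x : ℕ → X, (∀ n, x n ∈ A) ∧ Tendsto x atTop (𝓝 p)

theorem sequential_iff (X : Type u) [TopologicalSpace X] : Sequential X ↔ SequentialSpace X := by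
  constructor
  · intro h
    refine ⟨fun A hA => ?_⟩
    by_contra hc
    obtain ⟨p, hp, x, hx, ht⟩ := h A hc
    exact hp.2 (hA hx ht)
  · intro h A hA
    by_contra hc
    push Not at hc
    refine hA (IsSeqClosed.isClosed fun x p hx ht => ?_)
    by_contra hp
    exact hc p ⟨mem_closure_of_tendsto ht (Eventually.of_forall hx), hp⟩ x hx ht

/-! ### Hausdorff sequential spaces are discretely generated -/

theorem disc_gen {X : Type u} [TopologicalSpace X] [T2Space X] [SequentialSpace X] (A : Set X) :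
    closure A ⊆ {x | ∃ D, D ⊆ A ∧ DiscreteTopology D ∧ x ∈ closure D} := by
  refine closure_minimal (fun a ha => ⟨{a}, singleton_subset_iff.2 ha, inferInstance,
    subset_closure rfl⟩) (IsSeqClosed.isClosed fun x p hx ht => ?_)
  by_cases hp : ∃ n, x n = p
  · obtain ⟨n, rfl⟩ := hp
    exact hx n
  push Not at hp
  choose D hDA hD hxD using hx
  have step : ∀ (k : ℕ) (V : {V : Set X // IsOpen V ∧ p ∈ V}),
      ∃ (V' : {V : Set X // IsOpen V ∧ p ∈ V}) (n : ℕ) (U : Set X), k ≤ n ∧ IsOpen U ∧ x n ∈ U ∧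
        U ⊆ V.1 ∧ V'.1 ⊆ V.1 ∧ Disjoint U V'.1 := by
    intro k V
    obtain ⟨n, hn, hk⟩ := ((ht.eventually (V.2.1.mem_nhds V.2.2)).and
      (eventually_ge_atTop k)).exists
    obtain ⟨a, b, ha, hb, h1, h2, h3⟩ := t2_separation (hp n)
    exact ⟨⟨b ∩ V.1, hb.inter V.2.1, h2, V.2.2⟩, n, a ∩ V.1, hk, ha.inter V.2.1, ⟨h1, hn⟩,
      inter_subset_right, inter_subset_right, h3.mono inter_subset_left inter_subset_left⟩
  choose nx nn U h1 h2 h3 h4 h5 h6 using step
  let V : ℕ → {V : Set X // IsOpen V ∧ p ∈ V} := fun k =>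
    Nat.rec ⟨univ, isOpen_univ, mem_univ _⟩ (fun k v => nx k v) k
  have hV : ∀ k, V (k + 1) = nx k (V k) := fun _ => rfl
  have anti : Antitone fun k => (V k).1 := antitone_nat_of_succ_le fun k => h5 k (V k)
  have dis : ∀ j k, j < k → Disjoint (U j (V j)) (U k (V k)) := fun j k h =>
    (h6 j (V j)).mono_right ((h4 k (V k)).trans (anti (Nat.succ_le_of_lt h)))
  refine ⟨⋃ k, D (nn k (V k)) ∩ U k (V k), iUnion_subset fun k =>
    inter_subset_left.trans (hDA _), ?_, ?_⟩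
  · rw [discreteTopology_subtype_iff']
    intro y hy
    obtain ⟨k, hk⟩ := mem_iUnion.1 hy
    obtain ⟨O, hO, e⟩ := discreteTopology_subtype_iff'.1 (hD (nn k (V k))) y hk.1
    have hyO : y ∈ O := (e.symm ▸ (mem_singleton y) : y ∈ O ∩ _).1
    refine ⟨O ∩ U k (V k), hO.inter (h2 _ _), Subset.antisymm ?_ ?_⟩
    · rintro z ⟨⟨z1, z2⟩, hz⟩
      obtain ⟨j, hj⟩ := mem_iUnion.1 hz
      rcases lt_trichotomy j k with h | h | h
      · exact absurd z2 (disjoint_left.1 (dis j k h) hj.2)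
      · subst h
        rw [← e]
        exact ⟨z1, hj.1⟩
      · exact absurd hj.2 (disjoint_left.1 (dis k j h) z2)
    · rintro z rfl
      exact ⟨⟨hyO, hk.2⟩, hy⟩
  · have ht2 : Tendsto (fun k => x (nn k (V k))) atTop (𝓝 p) :=
      ht.comp (tendsto_atTop_mono (fun k => h1 k (V k)) tendsto_id)
    refine isClosed_closure.mem_of_tendsto ht2 (Eventually.of_forall fun k => ?_)
    refine closure_mono (subset_iUnion (fun k => D (nn k (V k)) ∩ U k (V k)) k) ?_
    exact (h2 k (V k)).closure_inter ⟨hxD _, h3 _ _⟩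

theorem sep_case (X : Type u) [TopologicalSpace X] [T2Space X] [SequentialSpace X]
    [TopologicalSpace.SeparableSpace X] : UpperDSeparable X := by
  intro D hD
  rcases isEmpty_or_nonempty X with h | h
  · exact ⟨fun _ => ∅, fun n => ⟨empty_subset _, inferInstance⟩, fun x => h.elim x⟩
  obtain ⟨s, hs⟩ := TopologicalSpace.exists_dense_seq X
  have := fun n => disc_gen (D n) (hD n (s n))
  choose F h1 h2 h3 using this
  refine ⟨F, fun n => ⟨h1 n, h2 n⟩, ?_⟩
  rw [← dense_closure]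
  refine Dense.mono ?_ hs
  rintro _ ⟨n, rfl⟩
  exact closure_mono (subset_iUnion F n) (h3 n)

/-! ### The Tychonoff example -/

/-- the first uncountable ordinal -/
abbrev W : Type := (Cardinal.aleph 1).ord.ToType

theorem W_bdd (f : ℕ → W) : ∃ x, ∀ n, f n < x := by
  have : ¬ IsCofinal (range f) := by
    intro h
    have h1 := Order.cof_le h
    rw [Ordinal.cof_toType, Cardinal.isRegular_aleph_one.cof_ord] at h1
    have h2 : Cardinal.mk (range f) ≤ Cardinal.aleph0 :=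
      Cardinal.le_aleph0_iff_set_countable.2 (countable_range f)
    exact absurd (h1.trans h2) (not_le.2 Cardinal.aleph0_lt_aleph_one)
  obtain ⟨x, hx⟩ := not_isCofinal_iff.1 this
  exact ⟨x, fun n => hx _ ⟨n, rfl⟩⟩

/-- nodes of the tree of countable transfinite sequences of naturals -/
structure T where
  a : W
  f : W → ℕ
  z : ∀ b, a ≤ b → f b = 0

theorem T.ext' {s t : T} (h1 : s.a = t.a) (h2 : ∀ b < s.a, s.f b = t.f b) : s = t := by
  have : s.f = t.f := by
    funext b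
    rcases lt_or_ge b s.a with h | h
    · exact h2 b h
    · rw [s.z b h, t.z b (h1 ▸ h)]
  cases s; cases t
  simp only at h1 this
  subst h1 this
  rfl

/-- extension -/
def Ext (s t : T) : Prop := s.a ≤ t.a ∧ ∀ b < s.a, t.f b = s.f b

/-- extension through the child number `n` -/
def V (s : T) (n : ℕ) : Set T := {t | s.a < t.a ∧ (∀ b < s.a, t.f b = s.f b) ∧ t.f s.a = n}

theorem Ext.refl (s : T) : Ext s s := ⟨le_rfl, fun _ _ => rfl⟩

theorem Ext.trans {s t u : T} (h1 : Ext s t) (h2 : Ext t u) : Ext s u :=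
  ⟨h1.1.trans h2.1, fun b hb => (h2.2 b (hb.trans_le h1.1)).trans (h1.2 b hb)⟩

theorem V_ext {s t : T} {n : ℕ} (h : t ∈ V s n) : Ext s t := ⟨h.1.le, h.2.1⟩

theorem V_up {s t u : T} {n : ℕ} (h : t ∈ V s n) (h2 : Ext t u) : u ∈ V s n :=
  ⟨h.1.trans_le h2.1, fun b hb => (h2.2 b (hb.trans h.1)).trans (h.2.1 b hb),
    (h2.2 _ h.1).trans h.2.2⟩

theorem V_ne (s : T) (n : ℕ) : (V s n).Nonempty := by
  classical
  obtain ⟨x, hx⟩ := W_bdd fun _ => s.a
  have hx := hx 0
  refine ⟨⟨x, fun b => if b = s.a then n else s.f b, fun b hb => ?_⟩, hx, fun b hb => ?_, ?_⟩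
  · rw [if_neg (hx.trans_le hb).ne', s.z b (hx.le.trans hb)]
  · simp [hb.ne]
  · simp

theorem chain_ub (s : ℕ → T) (h : ∀ n, Ext (s n) (s (n + 1))) : ∃ t, ∀ n, Ext (s n) t := by
  classical
  have hm : ∀ n m, n ≤ m → Ext (s n) (s m) := by
    intro n m hnm
    induction hnm with
    | refl => exact Ext.refl _
    | step _ ih => exact ih.trans (h _)
  obtain ⟨x, hx⟩ := W_bdd fun n => (s n).a
  refine ⟨⟨x, fun b => if h : ∃ n, b < (s n).a then (s h.choose).f b else 0, fun b hb => ?_⟩,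
    fun n => ⟨(hx n).le, fun b hb => ?_⟩⟩
  · rw [dif_neg]
    rintro ⟨n, hn⟩
    exact absurd (hn.trans (hx n)) (not_lt.2 hb)
  · have he : ∃ n, b < (s n).a := ⟨n, hb⟩
    simp only [dif_pos he]
    rcases le_total n he.choose with h1 | h1
    · exact (hm _ _ h1).2 b hb
    · exact ((hm _ _ h1).2 b he.choose_spec).symm

/-- the second coordinate neighbourhoods -/
def O (n : ℕ) (a : ℕ → Bool) : Set (ℕ → Bool) :=
  {b | (∀ i < n, b i = a i) ∧ ((∃ m : ℕ, a = m.testBit) → b n ≠ a n)}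

/-- the points of the example -/
structure X where
  t : T
  c : ℕ → Bool

/-- basic neighbourhoods -/
def N (k : ℕ) (x : X) : Set X := {y | y = x ∨ ∃ n, k ≤ n ∧ y.t ∈ V x.t n ∧ y.c ∈ O n x.c}

theorem N_self (k : ℕ) (x : X) : x ∈ N k x := Or.inl rfl

theorem N_anti {k j : ℕ} (h : k ≤ j) (x : X) : N j x ⊆ N k x := by
  rintro y (rfl | ⟨n, hn, h2⟩)
  · exact Or.inl rfl
  · exact Or.inr ⟨n, h.trans hn, h2⟩

theorem O_of {n m : ℕ} {a b c : ℕ → Bool} (hb : b ∈ O n a) (hc : c ∈ O m b) (h : n < m) :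
    c ∈ O n a :=
  ⟨fun i hi => (hc.1 i (hi.trans h)).trans (hb.1 i hi), fun e => (hc.1 n h).symm ▸ hb.2 e⟩

theorem O_of' {n m : ℕ} {a b c : ℕ → Bool} (hb : c ∈ O n a) (hc : c ∈ O m b) (h : n < m) :
    b ∈ O n a :=
  ⟨fun i hi => (hc.1 i (hi.trans h)).symm.trans (hb.1 i hi), fun e => (hc.1 n h) ▸ hb.2 e⟩

instance : TopologicalSpace X where
  IsOpen S := ∀ x ∈ S, ∃ k, N k x ⊆ S
  isOpen_univ := fun _ _ => ⟨0, subset_univ _⟩
  isOpen_inter := by
    intro S T hS hT F hF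
    obtain ⟨n, hn⟩ := hS F hF.1
    obtain ⟨m, hm⟩ := hT F hF.2
    exact ⟨max n m, subset_inter ((N_anti (le_max_left _ _) F).trans hn)
      ((N_anti (le_max_right _ _) F).trans hm)⟩
  isOpen_sUnion := by
    intro 𝒮 h F hF
    obtain ⟨S, hS, hFS⟩ := hF
    obtain ⟨n, hn⟩ := h S hS F hFS
    exact ⟨n, hn.trans (subset_sUnion_of_mem hS)⟩

theorem open_iff {S : Set X} : IsOpen S ↔ ∀ x ∈ S, ∃ n, N n x ⊆ S := Iff.rfl

theorem N_open (k : ℕ) (x : X) : IsOpen (N k x) := by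
  rw [open_iff]
  rintro y (rfl | ⟨n, hn, h1, h2⟩)
  · exact ⟨k, Subset.rfl⟩
  · refine ⟨n + 1, ?_⟩
    rintro z (rfl | ⟨m, hm, h3, h4⟩)
    · exact Or.inr ⟨n, hn, h1, h2⟩
    · exact Or.inr ⟨n, hn, V_up h1 (V_ext h3), O_of h2 h4 hm⟩

theorem N_closed (k : ℕ) (x : X) : IsClosed (N k x) := by
  rw [← isOpen_compl_iff, open_iff]
  intro y hy
  have hd : ∃ d, y.c ≠ x.c → y.c d ≠ x.c d := by
    by_cases h : y.c = x.c
    · exact ⟨0, fun h' => absurd h h'⟩
    · obtain ⟨d, hd⟩ := Function.ne_iff.1 h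
      exact ⟨d, fun _ => hd⟩
  obtain ⟨d, hd⟩ := hd
  refine ⟨x.t.f y.t.a + y.t.f x.t.a + d + 1, ?_⟩
  rintro z (rfl | ⟨m, hm, h3, h4⟩) hz
  · exact hy hz
  rcases hz with rfl | ⟨n, hn, h1, h2⟩
  · have := h3.2.2
    omega
  rcases lt_trichotomy y.t.a x.t.a with h | h | h
  · have := h3.2.2
    rw [h1.2.1 _ h] at this
    omega
  · have e : y.t = x.t := T.ext' h fun b hb => (h3.2.1 b hb).symm.trans (h1.2.1 b (h ▸ hb))
    have e2 : m = n := by rw [← h3.2.2, ← h1.2.2, h]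
    by_cases e3 : y.c = x.c
    · apply hy
      left
      cases x; cases y
      simp only at e e3
      rw [e, e3]
    · exact hd e3 ((h4.1 d (by omega)).symm.trans (h2.1 d (by omega)))
  · have e : y.t.f x.t.a = n := (h3.2.1 _ h).symm.trans h1.2.2
    refine hy (Or.inr ⟨n, hn, ⟨h, fun b hb => ?_, e⟩, O_of' h2 h4 (by omega)⟩)
    exact (h3.2.1 b (hb.trans h)).symm.trans (h1.2.1 b hb)

theorem tych : T35Space X := by
  have h0 : T0Space X := by
    refine t0Space_iff_inseparable X |>.2 fun x y h => ?_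
    rcases (h.mem_open_iff (N_open (y.t.f x.t.a + 1) x)).1 (N_self _ x) with e | ⟨n, hn, h1, _⟩
    · exact e.symm
    · have := h1.2.2
      omega
  have h1 : CompletelyRegularSpace X := by
    apply CompletelyRegularSpace.of_isTopologicalBasis_clopens
    refine TopologicalSpace.isTopologicalBasis_of_isOpen_of_nhds (fun _ s => s.isOpen) ?_
    intro F S hF hS
    obtain ⟨n, hn⟩ := open_iff.1 hS F hF
    exact ⟨N n F, ⟨N_closed n F, N_open n F⟩, N_self n F, hn⟩
  exact @T35Space.mk _ _ h0 h1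

theorem first : FirstCountableTopology X := by
  refine ⟨fun x => ?_⟩
  have : (𝓝 x).HasBasis (fun _ : ℕ => True) fun k => N k x := by
    refine ⟨fun S => ⟨fun h => ?_, fun ⟨k, _, hk⟩ =>
      mem_of_superset ((N_open k x).mem_nhds (N_self k x)) hk⟩⟩
    obtain ⟨U, h1, h2, h3⟩ := mem_nhds_iff.1 h
    obtain ⟨k, hk⟩ := open_iff.1 h2 x h3
    exact ⟨k, trivial, hk.trans h1⟩
  exact this.isCountablyGenerated

theorem bits (b : ℕ → Bool) (m : ℕ) : ∃ n : ℕ, ∀ i < m, n.testBit i = b i :=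
  ⟨Nat.ofBits fun i : Fin m => b i, fun i hi => by simp [hi]⟩

theorem dense_of (P : (ℕ → Bool) → Prop) (h : ∀ (b : ℕ → Bool) (m : ℕ), ∃ c, P c ∧ ∀ i < m, c i = b i) :
    Dense {x : X | P x.c} := by
  rw [dense_iff_inter_open]
  rintro U hU ⟨x, hx⟩
  obtain ⟨k, hk⟩ := open_iff.1 hU x hx
  obtain ⟨t, ht⟩ := V_ne x.t k
  obtain ⟨c, hc, e⟩ := h (fun i => if i < k then x.c i else !(x.c i)) (k + 1)
  refine ⟨⟨t, c⟩, hk (Or.inr ⟨k, le_rfl, ht, fun i hi => ?_, fun _ => ?_⟩), hc⟩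
  · simp [e i (by omega), hi]
  · simp [e k (by omega)]

theorem lowerD : LowerDSeparable X := by
  refine ⟨fun n => {x | x.c = n.testBit}, fun n => ?_, ?_⟩
  · rw [discreteTopology_subtype_iff']
    intro y hy
    refine ⟨N 0 y, N_open _ _, Subset.antisymm ?_ ?_⟩
    · rintro z ⟨rfl | ⟨m, _, _, h⟩, hz⟩
      · rfl
      · have hz' : z.c = n.testBit := hz
        have hy' : y.c = n.testBit := hy
        exact absurd (by rw [hz', hy']) (h.2 ⟨n, hy⟩)
    · rintro z rfl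
      exact ⟨N_self _ _, hy⟩
  · refine (dense_of (fun c => ∃ n : ℕ, c = n.testBit) fun b m => ?_).mono ?_
    · obtain ⟨n, hn⟩ := bits b m
      exact ⟨_, ⟨n, rfl⟩, hn⟩
    · rintro x ⟨n, hn⟩
      exact mem_iUnion.2 ⟨n, hn⟩

theorem not_upperD : ¬ UpperDSeparable X := by
  intro h
  obtain ⟨F, hF, hd⟩ := h (fun _ => {x | ∃ n : ℕ, x.c = fun i => !(n.testBit i)}) fun _ => by
    refine dense_of (fun c => ∃ n : ℕ, c = fun i => !(n.testBit i)) fun b m => ?_
    obtain ⟨n, hn⟩ := bits (fun i => !(b i)) m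
    exact ⟨_, ⟨n, rfl⟩, fun i hi => by simp [hn i hi]⟩
  have step : ∀ (q : ℕ × ℕ) (s : T), ∃ s', Ext s s' ∧ ∀ t, Ext s' t →
      (⟨t, fun i => !(q.2.testBit i)⟩ : X) ∉ F q.1 := by
    intro q s
    by_cases hc : ∃ t, Ext s t ∧ (⟨t, fun i => !(q.2.testBit i)⟩ : X) ∈ F q.1
    · obtain ⟨t, h1, h2⟩ := hc
      obtain ⟨U, hU, e⟩ := discreteTopology_subtype_iff'.1 (hF q.1).2 _ h2
      have hm : (⟨t, fun i => !(q.2.testBit i)⟩ : X) ∈ U :=
        (e.symm ▸ (mem_singleton _) : _ ∈ U ∩ F q.1).1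
      obtain ⟨k, hk⟩ := open_iff.1 hU _ hm
      obtain ⟨s', hs'⟩ := V_ne t k
      refine ⟨s', h1.trans (V_ext hs'), fun w hw hwF => ?_⟩
      have hwV := V_up hs' hw
      have : (⟨w, fun i => !(q.2.testBit i)⟩ : X) ∈ U ∩ F q.1 := by
        refine ⟨hk (Or.inr ⟨k, le_rfl, hwV, fun _ _ => rfl, ?_⟩), hwF⟩
        rintro ⟨m, hm⟩
        have e1 := congrFun hm (q.2 + m)
        have l1 : q.2 < 2 ^ (q.2 + m) :=
          lt_of_lt_of_le Nat.lt_two_pow_self (Nat.pow_le_pow_right (by norm_num) (by omega))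
        have l2 : m < 2 ^ (q.2 + m) :=
          lt_of_lt_of_le Nat.lt_two_pow_self (Nat.pow_le_pow_right (by norm_num) (by omega))
        simp [Nat.testBit_lt_two_pow l1, Nat.testBit_lt_two_pow l2] at e1
      rw [e] at this
      have e2 : w = t := congrArg X.t this
      exact absurd hwV.1 (by rw [e2]; exact lt_irrefl _)
    · push Not at hc
      exact ⟨s, Ext.refl s, hc⟩
  choose nx h1 h2 using step
  obtain ⟨x0, -⟩ := hd.nonempty_iff.2 ⟨⟨⟨Classical.choice (by
    exact Ordinal.nonempty_toType_iff.2 (by simpa using (Ordinal.omega_pos 1).ne')), fun _ => 0, fun _ _ => rfl⟩, fun _ => true⟩⟩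
  let s : ℕ → T := fun k => Nat.rec x0.t (fun k v => nx (Nat.unpair k) v) k
  obtain ⟨t, ht⟩ := chain_ub s fun n => h1 _ _
  have hO : IsOpen {x : X | Ext t x.t} := by
    rw [open_iff]
    refine fun x hx => ⟨0, ?_⟩
    rintro y (rfl | ⟨n, _, h3, _⟩)
    · exact hx
    · exact Ext.trans hx (V_ext h3)
  obtain ⟨y, hy, hyF⟩ := hd.inter_open_nonempty _ hO ⟨⟨t, x0.c⟩, Ext.refl t⟩
  obtain ⟨n, hn⟩ := mem_iUnion.1 hyF
  obtain ⟨m, hm⟩ := (hF n).1 hn
  have := h2 (Nat.unpair (Nat.pair n m)) (s (Nat.pair n m)) y.t ((ht (Nat.pair n m + 1)).trans hy)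
  rw [Nat.unpair_pair] at this
  apply this
  cases y
  simp only at hm
  subst hm
  exact hn

theorem result :
    (∃ (X : Type) (_ : TopologicalSpace X), T35Space X ∧ FirstCountableTopology X ∧
      Sequential X ∧ LowerDSeparable X ∧ ¬ UpperDSeparable X) ∧
    ∀ (X : Type u) [TopologicalSpace X] [T2Space X], Sequential X →
      TopologicalSpace.SeparableSpace X → UpperDSeparable X := by
  refine ⟨⟨X, inferInstance, tych, first, ?_, lowerD, not_upperD⟩, fun X _ _ h1 h2 => ?_⟩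
  · have := first
    exact (sequential_iff X).2 inferInstance
  · have := (sequential_iff X).1 h1
    exact sep_case X

end Pool.Agent.Results.MP_718903_gt.TychonoffAnswer
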